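import Pool.Graph.R_pool_sql_team_seeded_ab47071d.Results.MP_e54452_nt.DeRhamBettiForm
import Pool.Graph.R_pool_sql_team_seeded_64922ed1.Results.MP_e54452_nt.SubtorsorsAndIrrationality
import Pool.Graph.R_seed8.Results.MP_c2395a_nt.DisjointIndependentSets
import Pool.Graph.R_seed8.Results.MP_c2395a_nt.OddZeta7To13
import Pool.Graph.R_pool_sql_team_seeded_63374d34.Results.MP_c2395a_nt.WindowsRatio36
import Pool.Graph.R_seed8.Results.MP_c2395a_nt.ZetaFiveMeasureSharp
import Pool.Graph.R_pool_sql_team_seeded_efc1946e.Results.MP_c2395a_nt.ManyInWindows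

/-!
# Auxiliary results: irrational odd zeta values, number fields without imaginary elements
-/

set_option autoImplicit false

namespace Pool.Agent.H512.DRB

open Pool.Agent.Results.MP_e54452_nt.DeRhamBettiForm Pool.Agent.TH426.MT Complex

theorem irr_three' : Irrational (∑' n : ℕ, 1 / ((n : ℝ) + 1) ^ 3) := irr_three

theorem irr_five : Irrational (∑' n : ℕ, 1 / ((n : ℝ) + 1) ^ 5) := by
  obtain ⟨c, hc, h⟩ := Pool.Agent.Results.MP_c2395a_nt.ZetaFiveMeasureSharp.result
  rintro ⟨q, hq⟩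
  have h1 := h q.num q.den q.den_pos
  rw [← hq] at h1
  have h2 : ((q : ℝ)) = (q.num : ℝ) / (q.den : ℝ) := by exact_mod_cast (Rat.num_div_den q).symm
  rw [h2, sub_self, abs_zero] at h1
  have h3 : 0 < c / ((q.den : ℕ) : ℝ) ^ 83 := by
    have : (0 : ℝ) < q.den := by exact_mod_cast q.den_pos
    positivity
  linarith

/-- A number field without purely imaginary elements: the condition on `ζ(m)` is `ζ(m) ∉ k`. -/
theorem cond_of_not_mem {k : IntermediateField ℚ ℂ} [FiniteDimensional ℚ k]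
    (hk : ∀ z ∈ k, z.re = 0 → z = 0) {n : ℕ} (hn : (oddZeta n : ℂ) ∉ k) : Cond k n := by
  intro a b hab
  have halg : ∀ x : k, IsAlgebraic ℚ (x : ℂ) := fun x =>
    (Algebra.IsAlgebraic.isAlgebraic (R := ℚ) x).algebraMap
  have h1 : (a : ℂ) + (b : ℂ) * tau ^ (2 * n + 3) = (oddZeta n : ℂ) := by
    rw [hab]; rfl
  have h2 := congrArg (starRingEnd ℂ) h1
  have htau : (starRingEnd ℂ) tau = -tau := by
    unfold tau
    simp [Complex.conj_ofReal, map_ofNat]
  have hodd : Odd (2 * n + 3) := ⟨n + 1, by ring⟩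
  rw [map_add, map_mul, map_pow, htau, hodd.neg_pow, Complex.conj_ofReal] at h2
  have h3 : ((b : ℂ) + (starRingEnd ℂ) b) * tau ^ (2 * n + 3) = (starRingEnd ℂ) a - a := by
    linear_combination h1 - h2
  have hconj : ∀ x : k, IsAlgebraic ℚ ((starRingEnd ℂ) (x : ℂ)) := by
    intro x
    have := (halg x).algHom (Complex.conjAe.toAlgHom.restrictScalars ℚ)
    simpa using this
  have h4 : (b : ℂ) + (starRingEnd ℂ) b = 0 := by
    by_contra h0
    have h5 : tau ^ (2 * n + 3) = ((starRingEnd ℂ) (a : ℂ) - a) * ((b : ℂ) + (starRingEnd ℂ) b)⁻¹ := by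
      field_simp
      linear_combination h3
    have h6 : IsAlgebraic ℚ (tau ^ (2 * n + 3)) := by
      rw [h5]
      exact ((hconj a).sub (halg a)).mul ((halg b).add (hconj b)).inv
    exact tau_tr (IsAlgebraic.of_pow (by omega) h6)
  have h5 : (b : ℂ) = 0 := by
    apply hk _ b.2
    rw [Complex.add_conj] at h4
    have : (((2 * (b : ℂ).re : ℝ)) : ℂ) = 0 := by exact_mod_cast h4
    have := Complex.ofReal_eq_zero.1 this
    linarith
  apply hn
  rw [← h1, h5, zero_mul, add_zero]
  exact a.2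

/-- The real subfield, as a subfield of `ℝ`. -/
noncomputable def realPart (k : IntermediateField ℚ ℂ) : IntermediateField ℚ ℝ :=
  k.comap (Complex.ofRealAm.restrictScalars ℚ)

theorem mem_realPart {k : IntermediateField ℚ ℂ} {x : ℝ} : x ∈ realPart k ↔ (x : ℂ) ∈ k := Iff.rfl

/-- The inclusion of the real subfield. -/
noncomputable def incl (k : IntermediateField ℚ ℂ) : realPart k →ₗ[ℚ] k where
  toFun x := ⟨((x : ℝ) : ℂ), mem_realPart.1 x.2⟩
  map_add' x y := by
    apply Subtype.ext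
    push_cast
    rfl
  map_smul' c x := by
    apply Subtype.ext
    simp [Rat.smul_def]

theorem incl_inj (k : IntermediateField ℚ ℂ) : Function.Injective (incl k) := by
  intro x y h
  apply Subtype.ext
  have := congrArg (fun z : k => (z : ℂ)) h
  exact Complex.ofReal_injective this

instance finReal (k : IntermediateField ℚ ℂ) [FiniteDimensional ℚ k] :
    FiniteDimensional ℚ (realPart k) :=
  FiniteDimensional.of_injective (incl k) (incl_inj k)

theorem finrank_real (k : IntermediateField ℚ ℂ) [FiniteDimensional ℚ k] :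
    Module.finrank ℚ (realPart k) ≤ Module.finrank ℚ k :=
  LinearMap.finrank_le_finrank_of_injective (incl_inj k)

/-- Many odd zeta values of a window outside a number field of degree at most `d`. -/
theorem many_outside (b K s d : ℕ) (hK : 1 ≤ K)
    (hs : (2 : ℝ) ^ (264 * d) * ((b : ℝ) + 1) ^ 2 * (K : ℝ) ^ 3 * Real.log (K + 1) ≤ (s : ℝ) ^ 2)
    (k : IntermediateField ℚ ℂ) [FiniteDimensional ℚ k] (hk : Module.finrank ℚ k ≤ d) :
    K ≤ Set.ncard {n : ℕ | b < 2 * n + 3 ∧ 2 * n + 3 ≤ s ∧ (oddZeta n : ℂ) ∉ k} := by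
  obtain ⟨J, hJ, hJ2⟩ := Pool.Agent.Results.MP_c2395a_nt.DisjointIndependentSets.result b K s 1 d 1
    hK le_rfl (by
      have e : 132 * (d * (1 + 1)) = 264 * d := by ring
      rw [e]
      simpa using hs) (realPart k) ((finrank_real k).trans hk)
    (Submodule.span (realPart k) {(1 : ℝ)}) (finrank_span_singleton one_ne_zero).le
  have key : ∀ i : Fin K, ∃ n : ℕ, 2 * n + 3 ∈ J i ∧ b < 2 * n + 3 ∧ 2 * n + 3 ≤ s ∧
      (oddZeta n : ℂ) ∉ k := by
    intro i
    obtain ⟨h1, h2, h3⟩ := hJ2 i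
    obtain ⟨j, hj⟩ := Finset.card_eq_one.1 h1
    have hji : j ∈ J i := by rw [hj]; exact Finset.mem_singleton_self j
    obtain ⟨h4, h5, h6⟩ := h2 j hji
    have h7 := h3.ne_zero ⟨j, hji⟩
    have h8 : (∑' n : ℕ, 1 / ((n : ℝ) + 1) ^ j) ∉ Submodule.span (realPart k) {(1 : ℝ)} := by
      intro h
      apply h7
      exact (Submodule.Quotient.mk_eq_zero _).2 h
    have hj1 : j ≠ 1 := by
      rintro rfl
      apply h8
      have : (∑' n : ℕ, 1 / ((n : ℝ) + 1) ^ 1) = 0 := by
        apply tsum_eq_zero_of_not_summable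
        intro hsum
        have h9 : Summable fun n : ℕ => 1 / (((n + 1 : ℕ)) : ℝ) := by
          simpa using hsum
        exact Real.not_summable_one_div_natCast ((summable_nat_add_iff 1).1 h9)
      rw [this]
      exact Submodule.zero_mem _
    obtain ⟨l, hl⟩ := h6
    obtain ⟨n, rfl⟩ : ∃ n, l = n + 1 := ⟨l - 1, by omega⟩
    have hjn : j = 2 * n + 3 := by omega
    subst hjn
    refine ⟨n, hji, h4, h5, ?_⟩
    intro hmem
    apply h8
    rw [Submodule.mem_span_singleton]
    refine ⟨⟨oddZeta n, mem_realPart.2 hmem⟩, ?_⟩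
    show oddZeta n * 1 = _
    rw [mul_one]
    rfl
  choose f hf1 hf2 hf3 hf4 using key
  have hinj : Function.Injective f := by
    intro i i' h
    by_contra hne
    have := Finset.disjoint_left.1 (hJ i i' hne) (hf1 i)
    apply this
    rw [h]
    exact hf1 i'
  have hfin : {n : ℕ | b < 2 * n + 3 ∧ 2 * n + 3 ≤ s ∧ (oddZeta n : ℂ) ∉ k}.Finite :=
    (Set.finite_Iic s).subset fun n hn => by
      have := hn.2.1
      show n ≤ s
      omega
  calc K = (Set.range f).ncard := by
        rw [← Set.image_univ, Set.ncard_image_of_injective _ hinj, Set.ncard_univ, Nat.card_fin]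
    _ ≤ _ := Set.ncard_le_ncard (by
        rintro _ ⟨i, rfl⟩
        exact ⟨hf2 i, hf3 i, hf4 i⟩) hfin

/-- A number field of odd degree contains no purely imaginary numbers. -/
theorem no_imag_of_odd {k : IntermediateField ℚ ℂ} [FiniteDimensional ℚ k]
    (hodd : Odd (Module.finrank ℚ k)) : ∀ z ∈ k, z.re = 0 → z = 0 := by
  intro z hz hre
  by_contra hz0
  apply Nat.not_even_iff_odd.2 hodd
  let w : k := ⟨z, hz⟩
  let E : IntermediateField ℚ k := IntermediateField.adjoin ℚ {w ^ 2}
  have hE : ∀ x ∈ E, ((x : ℂ)).im = 0 := by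
    intro x hx
    induction hx using IntermediateField.adjoin_induction with
    | mem y hy =>
      rw [Set.mem_singleton_iff] at hy
      subst hy
      show (z ^ 2).im = 0
      rw [sq, Complex.mul_im, hre]
      ring
    | algebraMap q => 
      show ((q : ℂ)).im = 0
      simp
    | add y y' _ _ h h' =>
      show ((y : ℂ) + y').im = 0
      rw [Complex.add_im, h, h', add_zero]
    | inv y _ h =>
      show ((y : ℂ)⁻¹).im = 0
      rw [Complex.inv_im, h, neg_zero, zero_div]
    | mul y y' _ _ h h' =>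
      show ((y : ℂ) * y').im = 0
      rw [Complex.mul_im, h, h']
      ring
  have hw : w ∉ E := by
    intro h
    have h1 := hE w h
    apply hz0
    exact Complex.ext hre h1
  have hint : IsIntegral E w := Algebra.IsIntegral.isIntegral w
  have hdeg : (minpoly E w).natDegree = 2 := by
    have hle : (minpoly E w).natDegree ≤ 2 := by
      have hw2 : w ^ 2 ∈ E := IntermediateField.mem_adjoin_simple_self ℚ (w ^ 2)
      have h1 : minpoly E w ∣ (Polynomial.X ^ 2 - Polynomial.C (⟨w ^ 2, hw2⟩ : E)) := by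
        apply minpoly.dvd
        simp [Polynomial.aeval_def]
      have h2 := Polynomial.natDegree_le_of_dvd h1 (Polynomial.X_pow_sub_C_ne_zero (by norm_num) _)
      rwa [Polynomial.natDegree_X_pow_sub_C] at h2
    have hge : 2 ≤ (minpoly E w).natDegree := by
      rw [minpoly.two_le_natDegree_iff hint]
      rintro ⟨y, hy⟩
      apply hw
      rw [← hy]
      exact y.2
    omega
  have h1 : Module.finrank E (IntermediateField.adjoin E {w}) = 2 := by
    rw [IntermediateField.adjoin.finrank hint, hdeg]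
  have h2 := Module.finrank_mul_finrank ℚ E k
  have h3 := Module.finrank_mul_finrank E (IntermediateField.adjoin E {w}) k
  rw [← h2, ← h3, h1]
  exact Even.mul_left (Even.mul_right even_two _) _

/-- Irrational odd zeta values in the windows of ratio `3.6`. -/
theorem windows (n : ℕ) : ∃ m ∈ {n | Irrational (oddZeta n)}, n < m ∧ 5 * (2 * m + 3) < 18 * (2 * n + 3) := by
  obtain ⟨j, ⟨l, hl⟩, hj1, hj2, hj3⟩ := Pool.Agent.Results.MP_c2395a_nt.WindowsRatio36.result (2 * n + 3)
    ⟨n + 1, by ring⟩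
  obtain ⟨m, rfl⟩ : ∃ m, l = m + 1 := ⟨l - 1, by omega⟩
  have e : j = 2 * m + 3 := by omega
  subst e
  exact ⟨m, hj3, by omega, hj2⟩

/-- Many irrational odd zeta values. -/
theorem many_irr (b K s : ℕ) (hK : 1 ≤ K) (h2 : (2 : ℝ) ^ 66 * ((b : ℝ) + 1) * K * Real.log (K + 1) ≤ s)
    (h3 : (2 : ℝ) ^ 132 * ((b : ℝ) + 1) * (K : ℝ) ^ 3 * Real.log (K + 1) ≤ (s : ℝ) ^ 2) :
    K ≤ Set.ncard {n : ℕ | b < 2 * n + 3 ∧ 2 * n + 3 ≤ s ∧ n ∈ {n | Irrational (oddZeta n)}} := by
  have h4 := (Pool.Agent.Results.MP_c2395a_nt.ManyInWindows.result b K s 1 hK le_rfl (by simpa using h2)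
    (by simpa using h3)).1
  refine h4.trans ?_
  have hsub : {j : ℕ | b < j ∧ j ≤ s ∧ Odd j ∧ Irrational (∑' n : ℕ, 1 / ((n : ℝ) + 1) ^ j)} ⊆
      (fun n => 2 * n + 3) '' {n : ℕ | b < 2 * n + 3 ∧ 2 * n + 3 ≤ s ∧ n ∈ {n | Irrational (oddZeta n)}} := by
    rintro j ⟨hb, hs, ⟨l, hl⟩, hirr⟩
    have hl0 : l ≠ 0 := by
      rintro rfl
      subst hl
      apply hirr
      have : (∑' n : ℕ, 1 / ((n : ℝ) + 1) ^ (2 * 0 + 1)) = 0 := by
        apply tsum_eq_zero_of_not_summable
        intro hsum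
        have h9 : Summable fun n : ℕ => 1 / (((n + 1 : ℕ)) : ℝ) := by
          simpa using hsum
        exact Real.not_summable_one_div_natCast ((summable_nat_add_iff 1).1 h9)
      rw [this]
      exact ⟨0, by simp⟩
    obtain ⟨m, rfl⟩ : ∃ m, l = m + 1 := ⟨l - 1, by omega⟩
    have e : j = 2 * m + 3 := by omega
    subst e
    exact ⟨m, ⟨hb, hs, hirr⟩, rfl⟩
  have hfin : {n : ℕ | b < 2 * n + 3 ∧ 2 * n + 3 ≤ s ∧ n ∈ {n | Irrational (oddZeta n)}}.Finite :=
    (Set.finite_Iic s).subset fun n hn => by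
      have := hn.2.1
      show n ≤ s
      omega
  exact (Set.ncard_le_ncard hsub (hfin.image _)).trans (Set.ncard_image_le hfin)

end Pool.Agent.H512.DRB
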